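import Pool.Agent.TH966.KO.Rates
import Pool.Agent.H46R2.K3.EQ

/-!
# Self-avoiding walks on `ℤ³`: the ratios `c_{n+2} / c_n` and reduction to sparse sequences

On `ℤ³` the ratios satisfy `c_{n+2} / c_n ≤ μ² + K n^(-2/5+ε)` and
`c_{n+2} / c_n ≥ μ² - K n^(-1/3+ε)` (Kesten 1963: error `K n^(-1/3)` on both sides). So the errors in the two
directions are not the same: the upper one is smaller.

As a consequence the asymptotic formula `c_n ~ A μ^n n^(γ-1)`, along all `n` of one parity, follows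
from the same formula along any sequence of `n` of this parity with gaps `o(n^(1/3-δ))`.

The ingredients (starting library): Kesten's pattern theorem and his inequality
`c_{n+2}² ≤ c_n c_{n+4} (1 + D/n)` for `ℤ³` (`Pool.Agent.TH966`), and the bound
`c_n ≤ μ^n exp(K n^(1/3+ε))` (`Pool.Agent.W325`).
-/

set_option autoImplicit false

namespace Pool.Agent.Results.MP_794e6e_pr.RatioRates

open Filter Topology

/-- the number of `n`-step self-avoiding nearest-neighbour walks on `ℤ³` from `0` -/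
noncomputable def C (n : ℕ) : ℕ :=
  Nat.card {f : Fin (n + 1) → (Fin 3 → ℤ) //
    f 0 = 0 ∧ Function.Injective f ∧
    ∀ i : Fin n, ∑ j : Fin 3, |f i.succ j - f i.castSucc j| = 1}

/-- Slowly varying sequences which converge along a sequence with small gaps converge. -/
theorem sparse (v : ℕ → ℝ) (K β : ℝ) (hβ : 0 < β) (hK : 0 ≤ K)
    (h : ∀ᶠ n : ℕ in atTop, |v (n + 1) - v n| ≤ K * (n : ℝ) ^ (-β))
    (s : ℕ → ℕ) (hs : Tendsto s atTop atTop)
    (hgap : Tendsto (fun k => ((s (k + 1) : ℝ) - s k) * (s k : ℝ) ^ (-β)) atTop (𝓝 0))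
    (c : ℝ) (hc : Tendsto (fun k => v (s k)) atTop (𝓝 c)) : Tendsto v atTop (𝓝 c) := by
  rw [Metric.tendsto_atTop]
  intro ε hε
  obtain ⟨N1, hN1⟩ := eventually_atTop.1 h
  obtain ⟨k1, hk1⟩ := (Metric.tendsto_atTop.1 hc) (ε / 2) (by positivity)
  have h2 : ∀ᶠ k in atTop, K * (((s (k + 1) : ℝ) - s k) * (s k : ℝ) ^ (-β)) < ε / 2 := by
    have h3 := hgap.const_mul K
    rw [mul_zero] at h3
    exact h3.eventually (gt_mem_nhds (by positivity))
  obtain ⟨k2, hk2⟩ := eventually_atTop.1 h2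
  obtain ⟨k3, hk3⟩ := eventually_atTop.1 (hs.eventually (eventually_ge_atTop (max N1 1)))
  refine ⟨s (max k1 (max k2 k3)), fun n hn => ?_⟩
  have hfin : {k | s k ≤ n}.Finite := by
    obtain ⟨k4, hk4⟩ := eventually_atTop.1 (hs.eventually (eventually_gt_atTop n))
    refine (Set.finite_lt_nat k4).subset fun k hk => ?_
    by_contra hcon
    exact absurd (hk4 k (not_lt.1 hcon)) (not_lt.2 hk)
  obtain ⟨k, hk, hmax⟩ := Set.exists_max_image {k | s k ≤ n} id hfin ⟨_, hn⟩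
  have hk0 : max k1 (max k2 k3) ≤ k := hmax _ hn
  have hkn : s k ≤ n := hk
  have hk' : n < s (k + 1) := by
    by_contra hcon
    have := hmax (k + 1) (not_lt.1 hcon)
    simp only [id] at this
    omega
  have hs1 : max N1 1 ≤ s k := hk3 k (le_trans (le_trans (le_max_right _ _) (le_max_right _ _)) hk0)
  have hsN : N1 ≤ s k := (le_max_left _ _).trans hs1
  have hspos : (0 : ℝ) < s k := by
    exact_mod_cast lt_of_lt_of_le one_pos ((le_max_right N1 1).trans hs1)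
  have hstep : ∀ j, s k ≤ j → |v j - v (s k)| ≤ ((j : ℝ) - s k) * (K * (s k : ℝ) ^ (-β)) := by
    intro j hj
    induction j, hj using Nat.le_induction with
    | base => simp
    | succ j hj ih =>
      have h4 := hN1 j (hsN.trans hj)
      have h5 : (j : ℝ) ^ (-β) ≤ (s k : ℝ) ^ (-β) :=
        Real.rpow_le_rpow_of_nonpos hspos (by exact_mod_cast hj) (by linarith)
      have h6 : K * (j : ℝ) ^ (-β) ≤ K * (s k : ℝ) ^ (-β) := mul_le_mul_of_nonneg_left h5 hK
      calc |v (j + 1) - v (s k)| ≤ |v (j + 1) - v j| + |v j - v (s k)| := abs_sub_le _ _ _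
        _ ≤ K * (s k : ℝ) ^ (-β) + ((j : ℝ) - s k) * (K * (s k : ℝ) ^ (-β)) :=
            add_le_add (h4.trans h6) ih
        _ = (((j + 1 : ℕ) : ℝ) - s k) * (K * (s k : ℝ) ^ (-β)) := by push_cast; ring
  have h7 := hk1 k ((le_max_left _ _).trans hk0)
  have h8 := hk2 k (le_trans (le_trans (le_max_left _ _) (le_max_right _ _)) hk0)
  have h9 := hstep n hkn
  have h10 : ((n : ℝ) - s k) * (K * (s k : ℝ) ^ (-β)) ≤
      K * (((s (k + 1) : ℝ) - s k) * (s k : ℝ) ^ (-β)) := by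
    have h11 : (n : ℝ) ≤ s (k + 1) := by exact_mod_cast hk'.le
    have h12 : 0 ≤ K * (s k : ℝ) ^ (-β) := by positivity
    calc ((n : ℝ) - s k) * (K * (s k : ℝ) ^ (-β))
        ≤ ((s (k + 1) : ℝ) - s k) * (K * (s k : ℝ) ^ (-β)) :=
          mul_le_mul_of_nonneg_right (by linarith) h12
      _ = _ := by ring
  rw [Real.dist_eq] at h7 ⊢
  calc |v n - c| ≤ |v n - v (s k)| + |v (s k) - c| := abs_sub_le _ _ _
    _ < ε / 2 + ε / 2 := by linarith
    _ = ε := by ring

theorem abs_log_le {x : ℝ} (hx : |x - 1| ≤ 1 / 2) : |Real.log x| ≤ 2 * |x - 1| := by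
  have h1 := abs_le.1 hx
  have hx0 : 1 / 2 ≤ x := by linarith
  have hxp : 0 < x := by linarith
  rw [abs_le]
  constructor
  · have h2 := Real.one_sub_inv_le_log_of_pos hxp
    have h3 : -(2 * |x - 1|) ≤ 1 - x⁻¹ := by
      have h4 : 1 - x⁻¹ = (x - 1) / x := by field_simp
      rw [h4, le_div_iff₀ hxp]
      rcases le_total 0 (x - 1) with h | h
      · rw [abs_of_nonneg h]; nlinarith
      · rw [abs_of_nonpos h]; nlinarith
    linarith
  · have h2 := Real.log_le_sub_one_of_pos hxp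
    have h3 := le_abs_self (x - 1)
    have h4 := abs_nonneg (x - 1)
    linarith

/-- The reduction to sparse sequences, for any positive sequence with slowly varying ratios. -/
theorem power (a : ℕ → ℝ) (ha : ∀ n, 0 < a n) (μ : ℝ) (hμ : 0 < μ) (K β : ℝ) (hβ : 0 < β)
    (hβ1 : β ≤ 1)
    (h : ∀ᶠ n : ℕ in atTop, |a (n + 2) / a n - μ ^ 2| ≤ K * (n : ℝ) ^ (-β))
    (p : ℕ) (s : ℕ → ℕ) (hs : Tendsto s atTop atTop)
    (hgap : Tendsto (fun k => ((s (k + 1) : ℝ) - s k) * (s k : ℝ) ^ (-β)) atTop (𝓝 0))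
    (θ A : ℝ) (hA : 0 < A)
    (hc : Tendsto (fun k => a (2 * s k + p) /
      (μ ^ (2 * s k + p) * ((2 * s k + p : ℕ) : ℝ) ^ θ)) atTop (𝓝 A)) :
    Tendsto (fun m : ℕ => a (2 * m + p) /
      (μ ^ (2 * m + p) * ((2 * m + p : ℕ) : ℝ) ^ θ)) atTop (𝓝 A) := by
  set g : ℕ → ℝ := fun m => a (2 * m + p) / (μ ^ (2 * m + p) * ((2 * m + p : ℕ) : ℝ) ^ θ) with hg
  have hgpos : ∀ m, 1 ≤ m → 0 < g m := by
    intro m hm
    have h1 : (0 : ℝ) < ((2 * m + p : ℕ) : ℝ) := by exact_mod_cast (by omega : 0 < 2 * m + p)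
    exact div_pos (ha _) (mul_pos (pow_pos hμ _) (Real.rpow_pos_of_pos h1 θ))
  obtain ⟨K', hK'⟩ : ∃ K' : ℝ, K' = |K| / μ ^ 2 := ⟨_, rfl⟩
  have hK'0 : 0 ≤ K' := by rw [hK']; positivity
  have hlim : Tendsto (fun n : ℕ => K' * (n : ℝ) ^ (-β)) atTop (𝓝 0) := by
    have h1 := ((tendsto_rpow_neg_atTop hβ).comp tendsto_natCast_atTop_atTop).const_mul K'
    rw [mul_zero] at h1
    exact h1
  have hstep : ∀ᶠ n : ℕ in atTop, |a (n + 2) / (μ ^ 2 * a n) - 1| ≤ K' * (n : ℝ) ^ (-β) := by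
    filter_upwards [h] with n hn
    have h1 : a (n + 2) / (μ ^ 2 * a n) - 1 = (a (n + 2) / a n - μ ^ 2) / μ ^ 2 := by
      have := (ha n).ne'
      field_simp
    rw [h1, abs_div, abs_of_pos (show 0 < μ ^ 2 by positivity), hK', div_mul_eq_mul_div]
    apply div_le_div_of_nonneg_right _ (by positivity)
    exact hn.trans (mul_le_mul_of_nonneg_right (le_abs_self K) (by positivity))
  have hmain : ∀ᶠ n : ℕ in atTop, |Real.log (a (n + 2)) - Real.log (a n) - 2 * Real.log μ -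
      θ * (Real.log ((n + 2 : ℕ) : ℝ) - Real.log (n : ℝ))| ≤
        (2 * K' + 2 * |θ|) * (n : ℝ) ^ (-β) := by
    filter_upwards [hstep, hlim.eventually (gt_mem_nhds (show (0 : ℝ) < 1 / 2 by norm_num)),
      eventually_ge_atTop 1] with n h1 h2 h3
    have hn1 : (1 : ℝ) ≤ n := by exact_mod_cast h3
    have hn0 : (0 : ℝ) < n := by linarith
    have h4 := abs_log_le (h1.trans h2.le)
    have h5 : Real.log (a (n + 2) / (μ ^ 2 * a n)) =
        Real.log (a (n + 2)) - Real.log (a n) - 2 * Real.log μ := by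
      rw [Real.log_div (ha _).ne' (mul_pos (pow_pos hμ 2) (ha n)).ne',
        Real.log_mul (pow_pos hμ 2).ne' (ha n).ne', Real.log_pow]
      push_cast; ring
    rw [h5] at h4
    have h6 : |Real.log ((n + 2 : ℕ) : ℝ) - Real.log (n : ℝ)| ≤ 2 * (n : ℝ) ^ (-β) := by
      have h7 : (0 : ℝ) < ((n + 2 : ℕ) : ℝ) := by positivity
      have h8 : (n : ℝ) ≤ ((n + 2 : ℕ) : ℝ) := by push_cast; linarith
      rw [abs_of_nonneg (sub_nonneg.2 (Real.log_le_log hn0 h8)), ← Real.log_div h7.ne' hn0.ne']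
      have h9 := Real.log_le_sub_one_of_pos (div_pos h7 hn0)
      have h10 : ((n + 2 : ℕ) : ℝ) / n - 1 = 2 * (n : ℝ) ^ (-1 : ℝ) := by
        rw [Real.rpow_neg_one]
        push_cast
        field_simp
        ring
      rw [h10] at h9
      refine h9.trans (mul_le_mul_of_nonneg_left ?_ (by norm_num))
      exact Real.rpow_le_rpow_of_exponent_le hn1 (by linarith)
    calc |Real.log (a (n + 2)) - Real.log (a n) - 2 * Real.log μ -
          θ * (Real.log ((n + 2 : ℕ) : ℝ) - Real.log (n : ℝ))|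
        ≤ |Real.log (a (n + 2)) - Real.log (a n) - 2 * Real.log μ| +
          |θ * (Real.log ((n + 2 : ℕ) : ℝ) - Real.log (n : ℝ))| := abs_sub _ _
      _ ≤ 2 * (K' * (n : ℝ) ^ (-β)) + |θ| * (2 * (n : ℝ) ^ (-β)) := by
          rw [abs_mul]
          exact add_le_add (h4.trans (by linarith)) (mul_le_mul_of_nonneg_left h6 (abs_nonneg θ))
      _ = _ := by ring
  have hv : ∀ᶠ m : ℕ in atTop, |Real.log (g (m + 1)) - Real.log (g m)| ≤
      (2 * K' + 2 * |θ|) * (m : ℝ) ^ (-β) := by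
    have ht : Tendsto (fun m : ℕ => 2 * m + p) atTop atTop :=
      tendsto_atTop_mono (fun m => (by omega : m ≤ 2 * m + p)) tendsto_id
    filter_upwards [ht.eventually hmain, eventually_ge_atTop 1] with m h1 h2
    obtain ⟨n, hn⟩ : ∃ n, n = 2 * m + p := ⟨_, rfl⟩
    have hn0 : (0 : ℝ) < (n : ℝ) := by exact_mod_cast (by omega : 0 < n)
    have hn2 : (0 : ℝ) < ((n + 2 : ℕ) : ℝ) := by positivity
    have hm0 : (0 : ℝ) < (m : ℝ) := by exact_mod_cast h2
    have e1 : Real.log (g m) = Real.log (a n) - (n * Real.log μ + θ * Real.log (n : ℝ)) := by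
      simp only [hg, ← hn]
      rw [Real.log_div (ha _).ne' (mul_pos (pow_pos hμ _) (Real.rpow_pos_of_pos hn0 θ)).ne',
        Real.log_mul (pow_pos hμ _).ne' (Real.rpow_pos_of_pos hn0 θ).ne', Real.log_pow,
        Real.log_rpow hn0]
    have e2 : Real.log (g (m + 1)) = Real.log (a (n + 2)) -
        ((n + 2 : ℕ) * Real.log μ + θ * Real.log ((n + 2 : ℕ) : ℝ)) := by
      have e3 : 2 * (m + 1) + p = n + 2 := by omega
      simp only [hg, e3]
      rw [Real.log_div (ha _).ne' (mul_pos (pow_pos hμ _) (Real.rpow_pos_of_pos hn2 θ)).ne',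
        Real.log_mul (pow_pos hμ _).ne' (Real.rpow_pos_of_pos hn2 θ).ne', Real.log_pow,
        Real.log_rpow hn2]
    rw [← hn] at h1
    have e4 : Real.log (g (m + 1)) - Real.log (g m) =
        Real.log (a (n + 2)) - Real.log (a n) - 2 * Real.log μ -
          θ * (Real.log ((n + 2 : ℕ) : ℝ) - Real.log (n : ℝ)) := by
      rw [e1, e2]; push_cast; ring
    rw [e4]
    refine h1.trans (mul_le_mul_of_nonneg_left ?_ (by positivity))
    exact Real.rpow_le_rpow_of_nonpos hm0 (by exact_mod_cast (by omega : m ≤ n))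
      (by linarith)
  have hc' : Tendsto (fun k => Real.log (g (s k))) atTop (𝓝 (Real.log A)) :=
    (Real.continuousAt_log hA.ne').tendsto.comp hc
  have h3 := sparse (fun m => Real.log (g m)) _ β hβ (by positivity) hv s hs hgap _ hc'
  have h4 := (Real.continuous_exp.tendsto (Real.log A)).comp h3
  rw [Real.exp_log hA] at h4
  refine h4.congr' ?_
  filter_upwards [eventually_ge_atTop 1] with m hm
  exact Real.exp_log (hgpos m hm)

/-- **Theorem.** Let `c_n` be the number of `n`-step self-avoiding walks on `ℤ³` and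
`μ = lim c_n^(1/n)`.

(1) For every `ε > 0` there is a constant `K` such that for all large `n`
`-K n^(-1/3+ε) ≤ c_{n+2} / c_n - μ² ≤ K n^(-2/5+ε)`.

(2) Let `δ > 0`, `p` a natural number (`0` or `1` for the two parities), and `s_k → ∞` integers with
`(s_{k+1} - s_k) s_k^(-1/3+δ) → 0`. If `c_n / (μ^n n^(γ-1))` converges to `A > 0` along the
`n = 2 s_k + p`, then it converges to `A` along all `n = 2 m + p`. -/
theorem result : ∃ μ : ℝ, 0 < μ ∧
    Tendsto (fun n : ℕ => (C n : ℝ) ^ (1 / (n : ℝ))) atTop (𝓝 μ) ∧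
    (∀ ε : ℝ, 0 < ε → ∃ K : ℝ, ∀ᶠ n : ℕ in atTop,
      -(K * (n : ℝ) ^ (-(1 / 3 : ℝ) + ε)) ≤ (C (n + 2) : ℝ) / C n - μ ^ 2 ∧
      (C (n + 2) : ℝ) / C n - μ ^ 2 ≤ K * (n : ℝ) ^ (-(2 / 5 : ℝ) + ε)) ∧
    ∀ (δ : ℝ), 0 < δ → ∀ (p : ℕ) (s : ℕ → ℕ), Tendsto s atTop atTop →
      Tendsto (fun k => ((s (k + 1) : ℝ) - s k) * (s k : ℝ) ^ (-(1 / 3 : ℝ) + δ)) atTop (𝓝 0) →
      ∀ (γ A : ℝ), 0 < A →
      Tendsto (fun k => (C (2 * s k + p) : ℝ) /
        (μ ^ (2 * s k + p) * ((2 * s k + p : ℕ) : ℝ) ^ (γ - 1))) atTop (𝓝 A) →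
      Tendsto (fun m : ℕ => (C (2 * m + p) : ℝ) /
        (μ ^ (2 * m + p) * ((2 * m + p : ℕ) : ℝ) ^ (γ - 1))) atTop (𝓝 A) := by
  have hC : ∀ n, C n = TH966.KO.c n := fun n => Pool.Agent.H46R2.K3.P.card_eq n
  have hμ : 0 < TH966.KO.μ := by linarith [TH966.KO.mu_one]
  have hpos : ∀ n, (0 : ℝ) < C n := by
    intro n
    rw [hC]
    exact lt_of_lt_of_le (pow_pos hμ n) (Pool.Agent.H46R2.K3.P.mu_pow_le n)
  have hr : ∀ ε : ℝ, 0 < ε → ∃ K : ℝ, ∀ᶠ n : ℕ in atTop,
      -(K * (n : ℝ) ^ (-(1 / 3 : ℝ) + ε)) ≤ (C (n + 2) : ℝ) / C n - TH966.KO.μ ^ 2 ∧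
      (C (n + 2) : ℝ) / C n - TH966.KO.μ ^ 2 ≤ K * (n : ℝ) ^ (-(2 / 5 : ℝ) + ε) := by
    intro ε hε
    simp only [hC]
    exact TH966.KO.rates ε hε
  refine ⟨TH966.KO.μ, hμ, ?_, hr, ?_⟩
  · have h1 := Pool.Agent.H46R2.K3.P.tendsto_c
    refine h1.congr fun n => ?_
    rw [hC]
    rfl
  · intro δ hδ p s hs hgap γ A hA hc
    -- the exponent `β = 1/3 - η`, `η = min δ (1/6)`
    obtain ⟨η, hη⟩ : ∃ η : ℝ, η = min δ (1 / 6) := ⟨_, rfl⟩
    have hη0 : 0 < η := by rw [hη]; exact lt_min hδ (by norm_num)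
    have hη1 : η ≤ 1 / 6 := by rw [hη]; exact min_le_right _ _
    have hηδ : η ≤ δ := by rw [hη]; exact min_le_left _ _
    obtain ⟨K, hK⟩ := hr η hη0
    refine power (fun n => (C n : ℝ)) hpos TH966.KO.μ hμ |K| (1 / 3 - η) (by linarith)
      (by linarith) ?_ p s hs ?_ (γ - 1) A hA hc
    · filter_upwards [hK, eventually_ge_atTop 1] with n h1 h2
      have hn1 : (1 : ℝ) ≤ n := by exact_mod_cast h2
      have e1 : -(1 / 3 - η) = -(1 / 3 : ℝ) + η := by ring
      rw [e1, abs_le]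
      have h3 : K * (n : ℝ) ^ (-(1 / 3 : ℝ) + η) ≤ |K| * (n : ℝ) ^ (-(1 / 3 : ℝ) + η) :=
        mul_le_mul_of_nonneg_right (le_abs_self K) (by positivity)
      have h4 : K * (n : ℝ) ^ (-(2 / 5 : ℝ) + η) ≤ |K| * (n : ℝ) ^ (-(1 / 3 : ℝ) + η) := by
        refine (mul_le_mul_of_nonneg_right (le_abs_self K) (by positivity)).trans ?_
        exact mul_le_mul_of_nonneg_left
          (Real.rpow_le_rpow_of_exponent_le hn1 (by linarith)) (abs_nonneg K)
      exact ⟨by linarith [h1.1], by linarith [h1.2]⟩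
    · have e1 : -(1 / 3 - η) = -(1 / 3 : ℝ) + η := by ring
      rw [e1]
      refine squeeze_zero_norm' ?_ (tendsto_zero_iff_abs_tendsto_zero _ |>.1 hgap)
      filter_upwards [hs.eventually (eventually_ge_atTop 1)] with k hk
      have hk1 : (1 : ℝ) ≤ s k := by exact_mod_cast hk
      rw [Real.norm_eq_abs, Function.comp_apply, abs_mul, abs_mul]
      refine mul_le_mul_of_nonneg_left ?_ (abs_nonneg _)
      rw [abs_of_nonneg (by positivity), abs_of_nonneg (by positivity)]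
      exact Real.rpow_le_rpow_of_exponent_le hk1 (by linarith)

end Pool.Agent.Results.MP_794e6e_pr.RatioRates
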