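import Pool.Agent.TH966.KO.Rates
import Pool.Agent.H46R2.K3.EQ

/-!
# Self-avoiding walks on `ℤ³`: the asymptotic formula along sequences with gaps `n^(2/5-δ)`

Let `c_n` be the number of `n`-step self-avoiding walks on `ℤ³` and `μ = lim c_n^(1/n)`. If the
asymptotic formula `c_n ~ A μ^n n^(γ-1)` holds along the `n = 2 s_k + p`, where `s_k → ∞` and
`(s_{k+1} - s_k) s_k^(-2/5+δ) → 0`, then it holds along all `n = 2 m + p`.

The proof uses only the upper bound `c_{n+2} / c_n ≤ μ² + K n^(-2/5+ε)`, for which the exponent `2/5` is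
available: from the left end of a gap it gives upper bounds for `c_n`, from the right end lower bounds.
-/

set_option autoImplicit false

namespace Pool.Agent.Results.MP_794e6e_pr.SparseTwoFifths

open Filter Topology

/-- the number of `n`-step self-avoiding nearest-neighbour walks on `ℤ³` from `0` -/
noncomputable def C (n : ℕ) : ℕ :=
  Nat.card {f : Fin (n + 1) → (Fin 3 → ℤ) //
    f 0 = 0 ∧ Function.Injective f ∧
    ∀ i : Fin n, ∑ j : Fin 3, |f i.succ j - f i.castSucc j| = 1}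

/-- Sequences with a one-sided bound for the increments which converge along a sequence with small
gaps converge. -/
theorem sparse (v : ℕ → ℝ) (K β : ℝ) (hβ : 0 < β) (hK : 0 ≤ K)
    (h : ∀ᶠ n : ℕ in atTop, v (n + 1) - v n ≤ K * (n : ℝ) ^ (-β))
    (s : ℕ → ℕ) (hs : Tendsto s atTop atTop)
    (hgap : Tendsto (fun k => ((s (k + 1) : ℝ) - s k) * (s k : ℝ) ^ (-β)) atTop (𝓝 0))
    (c : ℝ) (hc : Tendsto (fun k => v (s k)) atTop (𝓝 c)) : Tendsto v atTop (𝓝 c) := by
  rw [Metric.tendsto_atTop]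
  intro ε hε
  obtain ⟨N1, hN1⟩ := eventually_atTop.1 h
  obtain ⟨k1, hk1⟩ := (Metric.tendsto_atTop.1 hc) (ε / 2) (by positivity)
  have h2 : ∀ᶠ k in atTop, K * (((s (k + 1) : ℝ) - s k) * (s k : ℝ) ^ (-β)) < ε / 2 := by
    have h3 := hgap.const_mul K
    rw [mul_zero] at h3
    exact h3.eventually (gt_mem_nhds (by positivity))
  obtain ⟨k2, hk2⟩ := eventually_atTop.1 h2
  obtain ⟨k3, hk3⟩ := eventually_atTop.1 (hs.eventually (eventually_ge_atTop (max N1 1)))
  refine ⟨s (max k1 (max k2 k3)), fun n hn => ?_⟩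
  have hfin : {k | s k ≤ n}.Finite := by
    obtain ⟨k4, hk4⟩ := eventually_atTop.1 (hs.eventually (eventually_gt_atTop n))
    refine (Set.finite_lt_nat k4).subset fun k hk => ?_
    by_contra hcon
    exact absurd (hk4 k (not_lt.1 hcon)) (not_lt.2 hk)
  obtain ⟨k, hk, hmax⟩ := Set.exists_max_image {k | s k ≤ n} id hfin ⟨_, hn⟩
  have hk0 : max k1 (max k2 k3) ≤ k := hmax _ hn
  have hkn : s k ≤ n := hk
  have hk' : n < s (k + 1) := by
    by_contra hcon
    have := hmax (k + 1) (not_lt.1 hcon)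
    simp only [id] at this
    omega
  have hs1 : max N1 1 ≤ s k := hk3 k (le_trans (le_trans (le_max_right _ _) (le_max_right _ _)) hk0)
  have hsN : N1 ≤ s k := (le_max_left _ _).trans hs1
  have hspos : (0 : ℝ) < s k := by
    exact_mod_cast lt_of_lt_of_le one_pos ((le_max_right N1 1).trans hs1)
  have hnonneg : 0 ≤ K * (s k : ℝ) ^ (-β) := by positivity
  have hstep : ∀ m, s k ≤ m → ∀ j, m ≤ j → v j - v m ≤ ((j : ℝ) - m) * (K * (s k : ℝ) ^ (-β)) := by
    intro m hm j hj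
    induction j, hj using Nat.le_induction with
    | base => simp
    | succ j hj ih =>
      have h4 := hN1 j (hsN.trans (hm.trans hj))
      have h5 : (j : ℝ) ^ (-β) ≤ (s k : ℝ) ^ (-β) :=
        Real.rpow_le_rpow_of_nonpos hspos (by exact_mod_cast (hm.trans hj)) (by linarith)
      have h6 : K * (j : ℝ) ^ (-β) ≤ K * (s k : ℝ) ^ (-β) := mul_le_mul_of_nonneg_left h5 hK
      have e : (((j + 1 : ℕ) : ℝ) - m) * (K * (s k : ℝ) ^ (-β)) =
          ((j : ℝ) - m) * (K * (s k : ℝ) ^ (-β)) + K * (s k : ℝ) ^ (-β) := by push_cast; ring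
      rw [e]
      linarith
  have hnR : (s k : ℝ) ≤ n := by exact_mod_cast hkn
  have hn'R : (n : ℝ) ≤ s (k + 1) := by exact_mod_cast hk'.le
  have h7 := hk1 k ((le_max_left _ _).trans hk0)
  have h7' := hk1 (k + 1) (((le_max_left _ _).trans hk0).trans (Nat.le_succ k))
  have h8 := hk2 k (le_trans (le_trans (le_max_left _ _) (le_max_right _ _)) hk0)
  have e8 : K * (((s (k + 1) : ℝ) - s k) * (s k : ℝ) ^ (-β)) =
      ((s (k + 1) : ℝ) - s k) * (K * (s k : ℝ) ^ (-β)) := by ring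
  rw [e8] at h8
  have h9 := hstep (s k) le_rfl n hkn
  have h10 := hstep n hkn (s (k + 1)) hk'.le
  have h11 : ((n : ℝ) - s k) * (K * (s k : ℝ) ^ (-β)) ≤
      ((s (k + 1) : ℝ) - s k) * (K * (s k : ℝ) ^ (-β)) :=
    mul_le_mul_of_nonneg_right (by linarith) hnonneg
  have h12 : ((s (k + 1) : ℝ) - n) * (K * (s k : ℝ) ^ (-β)) ≤
      ((s (k + 1) : ℝ) - s k) * (K * (s k : ℝ) ^ (-β)) :=
    mul_le_mul_of_nonneg_right (by linarith) hnonneg
  rw [Real.dist_eq] at h7 h7' ⊢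
  rw [abs_lt] at h7 h7' ⊢
  constructor <;> linarith [h7.1, h7.2, h7'.1, h7'.2]

/-- The reduction to sparse sequences, for any positive sequence with a one-sided bound for the
ratios. -/
theorem power (a : ℕ → ℝ) (ha : ∀ n, 0 < a n) (μ : ℝ) (hμ : 0 < μ) (K β : ℝ) (hβ : 0 < β)
    (hβ1 : β ≤ 1)
    (h : ∀ᶠ n : ℕ in atTop, a (n + 2) / a n - μ ^ 2 ≤ K * (n : ℝ) ^ (-β))
    (p : ℕ) (s : ℕ → ℕ) (hs : Tendsto s atTop atTop)
    (hgap : Tendsto (fun k => ((s (k + 1) : ℝ) - s k) * (s k : ℝ) ^ (-β)) atTop (𝓝 0))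
    (θ A : ℝ) (hA : 0 < A)
    (hc : Tendsto (fun k => a (2 * s k + p) /
      (μ ^ (2 * s k + p) * ((2 * s k + p : ℕ) : ℝ) ^ θ)) atTop (𝓝 A)) :
    Tendsto (fun m : ℕ => a (2 * m + p) /
      (μ ^ (2 * m + p) * ((2 * m + p : ℕ) : ℝ) ^ θ)) atTop (𝓝 A) := by
  set g : ℕ → ℝ := fun m => a (2 * m + p) / (μ ^ (2 * m + p) * ((2 * m + p : ℕ) : ℝ) ^ θ) with hg
  have hgpos : ∀ m, 1 ≤ m → 0 < g m := by
    intro m hm
    have h1 : (0 : ℝ) < ((2 * m + p : ℕ) : ℝ) := by exact_mod_cast (by omega : 0 < 2 * m + p)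
    exact div_pos (ha _) (mul_pos (pow_pos hμ _) (Real.rpow_pos_of_pos h1 θ))
  obtain ⟨K', hK'⟩ : ∃ K' : ℝ, K' = |K| / μ ^ 2 := ⟨_, rfl⟩
  have hK'0 : 0 ≤ K' := by rw [hK']; positivity
  have hstep : ∀ᶠ n : ℕ in atTop, a (n + 2) / (μ ^ 2 * a n) - 1 ≤ K' * (n : ℝ) ^ (-β) := by
    filter_upwards [h] with n hn
    have h1 : a (n + 2) / (μ ^ 2 * a n) - 1 = (a (n + 2) / a n - μ ^ 2) / μ ^ 2 := by
      have := (ha n).ne'
      field_simp
    rw [h1, hK', div_mul_eq_mul_div]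
    apply div_le_div_of_nonneg_right _ (by positivity)
    exact hn.trans (mul_le_mul_of_nonneg_right (le_abs_self K) (by positivity))
  have hmain : ∀ᶠ n : ℕ in atTop, Real.log (a (n + 2)) - Real.log (a n) - 2 * Real.log μ -
      θ * (Real.log ((n + 2 : ℕ) : ℝ) - Real.log (n : ℝ)) ≤
        (K' + 2 * |θ|) * (n : ℝ) ^ (-β) := by
    filter_upwards [hstep, eventually_ge_atTop 1] with n h1 h3
    have hn1 : (1 : ℝ) ≤ n := by exact_mod_cast h3
    have hn0 : (0 : ℝ) < n := by linarith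
    have h4 := Real.log_le_sub_one_of_pos (div_pos (ha (n + 2)) (mul_pos (pow_pos hμ 2) (ha n)))
    have h5 : Real.log (a (n + 2) / (μ ^ 2 * a n)) =
        Real.log (a (n + 2)) - Real.log (a n) - 2 * Real.log μ := by
      rw [Real.log_div (ha _).ne' (mul_pos (pow_pos hμ 2) (ha n)).ne',
        Real.log_mul (pow_pos hμ 2).ne' (ha n).ne', Real.log_pow]
      push_cast; ring
    rw [h5] at h4
    have h6 : |Real.log ((n + 2 : ℕ) : ℝ) - Real.log (n : ℝ)| ≤ 2 * (n : ℝ) ^ (-β) := by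
      have h7 : (0 : ℝ) < ((n + 2 : ℕ) : ℝ) := by positivity
      have h8 : (n : ℝ) ≤ ((n + 2 : ℕ) : ℝ) := by push_cast; linarith
      rw [abs_of_nonneg (sub_nonneg.2 (Real.log_le_log hn0 h8)), ← Real.log_div h7.ne' hn0.ne']
      have h9 := Real.log_le_sub_one_of_pos (div_pos h7 hn0)
      have h10 : ((n + 2 : ℕ) : ℝ) / n - 1 = 2 * (n : ℝ) ^ (-1 : ℝ) := by
        rw [Real.rpow_neg_one]
        push_cast
        field_simp
        ring
      rw [h10] at h9
      refine h9.trans (mul_le_mul_of_nonneg_left ?_ (by norm_num))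
      exact Real.rpow_le_rpow_of_exponent_le hn1 (by linarith)
    have h7 : |θ * (Real.log ((n + 2 : ℕ) : ℝ) - Real.log (n : ℝ))| ≤
        |θ| * (2 * (n : ℝ) ^ (-β)) := by
      rw [abs_mul]
      exact mul_le_mul_of_nonneg_left h6 (abs_nonneg θ)
    have h8 := (abs_le.1 h7).1
    have e : (K' + 2 * |θ|) * (n : ℝ) ^ (-β) = K' * (n : ℝ) ^ (-β) + |θ| * (2 * (n : ℝ) ^ (-β)) := by
      ring
    rw [e]
    linarith
  have hv : ∀ᶠ m : ℕ in atTop, Real.log (g (m + 1)) - Real.log (g m) ≤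
      (K' + 2 * |θ|) * (m : ℝ) ^ (-β) := by
    have ht : Tendsto (fun m : ℕ => 2 * m + p) atTop atTop :=
      tendsto_atTop_mono (fun m => (by omega : m ≤ 2 * m + p)) tendsto_id
    filter_upwards [ht.eventually hmain, eventually_ge_atTop 1] with m h1 h2
    obtain ⟨n, hn⟩ : ∃ n, n = 2 * m + p := ⟨_, rfl⟩
    have hn0 : (0 : ℝ) < (n : ℝ) := by exact_mod_cast (by omega : 0 < n)
    have hn2 : (0 : ℝ) < ((n + 2 : ℕ) : ℝ) := by positivity
    have hm0 : (0 : ℝ) < (m : ℝ) := by exact_mod_cast h2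
    have e1 : Real.log (g m) = Real.log (a n) - (n * Real.log μ + θ * Real.log (n : ℝ)) := by
      simp only [hg, ← hn]
      rw [Real.log_div (ha _).ne' (mul_pos (pow_pos hμ _) (Real.rpow_pos_of_pos hn0 θ)).ne',
        Real.log_mul (pow_pos hμ _).ne' (Real.rpow_pos_of_pos hn0 θ).ne', Real.log_pow,
        Real.log_rpow hn0]
    have e2 : Real.log (g (m + 1)) = Real.log (a (n + 2)) -
        ((n + 2 : ℕ) * Real.log μ + θ * Real.log ((n + 2 : ℕ) : ℝ)) := by
      have e3 : 2 * (m + 1) + p = n + 2 := by omega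
      simp only [hg, e3]
      rw [Real.log_div (ha _).ne' (mul_pos (pow_pos hμ _) (Real.rpow_pos_of_pos hn2 θ)).ne',
        Real.log_mul (pow_pos hμ _).ne' (Real.rpow_pos_of_pos hn2 θ).ne', Real.log_pow,
        Real.log_rpow hn2]
    rw [← hn] at h1
    have e4 : Real.log (g (m + 1)) - Real.log (g m) =
        Real.log (a (n + 2)) - Real.log (a n) - 2 * Real.log μ -
          θ * (Real.log ((n + 2 : ℕ) : ℝ) - Real.log (n : ℝ)) := by
      rw [e1, e2]; push_cast; ring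
    rw [e4]
    refine h1.trans (mul_le_mul_of_nonneg_left ?_ (by positivity))
    exact Real.rpow_le_rpow_of_nonpos hm0 (by exact_mod_cast (by omega : m ≤ n))
      (by linarith)
  have hc' : Tendsto (fun k => Real.log (g (s k))) atTop (𝓝 (Real.log A)) :=
    (Real.continuousAt_log hA.ne').tendsto.comp hc
  have h3 := sparse (fun m => Real.log (g m)) _ β hβ (by positivity) hv s hs hgap _ hc'
  have h4 := (Real.continuous_exp.tendsto (Real.log A)).comp h3
  rw [Real.exp_log hA] at h4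
  refine h4.congr' ?_
  filter_upwards [eventually_ge_atTop 1] with m hm
  exact Real.exp_log (hgpos m hm)

/-- **Theorem.** Let `c_n` be the number of `n`-step self-avoiding walks on `ℤ³` and
`μ = lim c_n^(1/n)`. Let `δ > 0`, `p` a natural number (`0` or `1` for the two parities), and
`s_k → ∞` integers with `(s_{k+1} - s_k) s_k^(-2/5+δ) → 0`. If `c_n / (μ^n n^(γ-1))` converges to
`A > 0` along the `n = 2 s_k + p`, then it converges to `A` along all `n = 2 m + p`. -/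
theorem result : ∃ μ : ℝ, 0 < μ ∧
    Tendsto (fun n : ℕ => (C n : ℝ) ^ (1 / (n : ℝ))) atTop (𝓝 μ) ∧
    ∀ (δ : ℝ), 0 < δ → ∀ (p : ℕ) (s : ℕ → ℕ), Tendsto s atTop atTop →
      Tendsto (fun k => ((s (k + 1) : ℝ) - s k) * (s k : ℝ) ^ (-(2 / 5 : ℝ) + δ)) atTop (𝓝 0) →
      ∀ (γ A : ℝ), 0 < A →
      Tendsto (fun k => (C (2 * s k + p) : ℝ) /
        (μ ^ (2 * s k + p) * ((2 * s k + p : ℕ) : ℝ) ^ (γ - 1))) atTop (𝓝 A) →
      Tendsto (fun m : ℕ => (C (2 * m + p) : ℝ) /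
        (μ ^ (2 * m + p) * ((2 * m + p : ℕ) : ℝ) ^ (γ - 1))) atTop (𝓝 A) := by
  have hC : ∀ n, C n = TH966.KO.c n := fun n => Pool.Agent.H46R2.K3.P.card_eq n
  have hμ : 0 < TH966.KO.μ := by linarith [TH966.KO.mu_one]
  have hpos : ∀ n, (0 : ℝ) < C n := by
    intro n
    rw [hC]
    exact lt_of_lt_of_le (pow_pos hμ n) (Pool.Agent.H46R2.K3.P.mu_pow_le n)
  refine ⟨TH966.KO.μ, hμ, ?_, ?_⟩
  · have h1 := Pool.Agent.H46R2.K3.P.tendsto_c
    refine h1.congr fun n => ?_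
    rw [hC]
    rfl
  · intro δ hδ p s hs hgap γ A hA hc
    obtain ⟨η, hη⟩ : ∃ η : ℝ, η = min δ (1 / 6) := ⟨_, rfl⟩
    have hη0 : 0 < η := by rw [hη]; exact lt_min hδ (by norm_num)
    have hη1 : η ≤ 1 / 6 := by rw [hη]; exact min_le_right _ _
    have hηδ : η ≤ δ := by rw [hη]; exact min_le_left _ _
    obtain ⟨K, hK⟩ := TH966.KO.rates η hη0
    refine power (fun n => (C n : ℝ)) hpos TH966.KO.μ hμ K (2 / 5 - η) (by linarith)
      (by linarith) ?_ p s hs ?_ (γ - 1) A hA hc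
    · filter_upwards [hK] with n h1
      have e1 : -(2 / 5 - η) = -(2 / 5 : ℝ) + η := by ring
      rw [e1, hC, hC]
      exact h1.2
    · have e1 : -(2 / 5 - η) = -(2 / 5 : ℝ) + η := by ring
      rw [e1]
      refine squeeze_zero_norm' ?_ (tendsto_zero_iff_abs_tendsto_zero _ |>.1 hgap)
      filter_upwards [hs.eventually (eventually_ge_atTop 1)] with k hk
      have hk1 : (1 : ℝ) ≤ s k := by exact_mod_cast hk
      rw [Real.norm_eq_abs, Function.comp_apply, abs_mul, abs_mul]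
      refine mul_le_mul_of_nonneg_left ?_ (abs_nonneg _)
      rw [abs_of_nonneg (by positivity), abs_of_nonneg (by positivity)]
      exact Real.rpow_le_rpow_of_exponent_le hk1 (by linarith)

end Pool.Agent.Results.MP_794e6e_pr.SparseTwoFifths
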